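import Mathlib

namespace Pool.Agent.H.MP_1dfc85_pr

open Finset Function

variable {ι κ : Type} [Fintype ι] [DecidableEq ι] [Fintype κ] [DecidableEq κ]

/-- The probability of a 0/1 labelling under independent Bernoulli(p) labels. -/
noncomputable def w (p : ℝ) (G : ι → Bool) : ℝ := ∏ e, if G e = true then p else 1 - p

lemma w_pos {p : ℝ} (h0 : 0 < p) (h1 : p < 1) (G : ι → Bool) : 0 < w p G :=
  prod_pos fun e _ => by split_ifs <;> linarith

lemma eprod (p : ℝ) (g : ι → Bool → ℝ) :
    ∑ G : ι → Bool, w p G * ∏ e, g e (G e) = ∏ e, (p * g e true + (1 - p) * g e false) := by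
  simp only [w, ← prod_mul_distrib]
  rw [← Fintype.piFinset_univ, ← prod_univ_sum (t := fun _ => univ)
    (f := fun e (b : Bool) => (if b = true then p else 1 - p) * g e b)]
  simp

lemma w_sum (p : ℝ) : ∑ G : ι → Bool, w p G = 1 := by
  simpa using eprod (ι := ι) p fun _ _ => 1

lemma indep (p : ℝ) (F : (ι → Bool) → ℝ) (F' : (κ → Bool) → ℝ) :
    ∑ G : ι ⊕ κ → Bool, w p G * (F (G ∘ .inl) * F' (G ∘ .inr)) = (∑ G, w p G * F G) * ∑ G, w p G * F' G := by
  rw [sum_mul_sum, ← Fintype.sum_prod_type', ← (Equiv.sumArrowEquivProdArrow ι κ Bool).sum_comp]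
  refine sum_congr rfl fun G _ => ?_
  simp only [w, Fintype.prod_sum_type, mul_mul_mul_comm]
  rfl

lemma marg (p : ℝ) {j : κ → ι} (hj : Injective j) (F : (κ → Bool) → ℝ) :
    ∑ G : ι → Bool, w p G * F (G ∘ j) = ∑ H, w p H * F H := by
  classical
  let e : κ ⊕ {x // x ∉ Set.range j} ≃ ι :=
    ((Equiv.ofInjective j hj).sumCongr (Equiv.refl _)).trans (Equiv.sumCompl _)
  have := indep (κ := {x // x ∉ Set.range j}) p F fun _ => 1
  simp only [mul_one, w_sum] at this
  rw [← this, ← (e.symm.arrowCongr (Equiv.refl Bool)).sum_comp]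
  refine sum_congr rfl fun G _ => ?_
  congr 1
  exact (e.prod_comp fun x => if G x = true then p else 1 - p).symm

lemma none (p : ℝ) (D : Finset ι) :
    ∑ G : ι → Bool, w p G * (if ∀ e ∈ D, G e = false then 1 else 0) = (1 - p) ^ D.card := by
  have := eprod p fun (e : ι) b => if e ∈ D then (if b = false then 1 else 0) else 1
  convert this using 1
  · refine sum_congr rfl fun G _ => congrArg _ ?_
    split_ifs with h
    · exact (prod_eq_one fun e _ => by by_cases h' : e ∈ D <;> simp [h', h e]).symm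
    · push Not at h
      obtain ⟨e, h1, h2⟩ := h
      exact (prod_eq_zero (mem_univ e) (by simp [h1, h2])).symm
  · rw [← prod_const, ← univ_inter D, ← prod_ite_mem]
    exact prod_congr rfl fun e _ => by by_cases h : e ∈ D <;> simp [h]

noncomputable def ec (H : ι → Bool) : ℝ := ∑ e, if H e = true then 1 else 0

lemma var (p : ℝ) : ∑ H : ι → Bool, w p H * (ec H - p * Fintype.card ι) ^ 2 = Fintype.card ι * (p * (1 - p)) := by
  have e1 : ∀ H : ι → Bool, ec H - p * Fintype.card ι = ∑ e, ((if H e = true then 1 else 0) - p) := fun H => by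
    simp [ec, mul_comm]
  simp only [e1, sq, sum_mul_sum]
  simp only [mul_sum]
  rw [sum_comm, ← card_univ, ← nsmul_eq_mul, ← sum_const]
  refine sum_congr rfl fun a _ => ?_
  rw [sum_comm]
  have e2 := fun b => eprod p fun (e : ι) x => (if e = a then ((if x = true then 1 else 0) - p) else 1) *
    if e = b then ((if x = true then 1 else 0) - p) else 1
  simp only [prod_mul_distrib, prod_ite_eq', mem_univ, if_true] at e2
  simp only [e2]
  rw [sum_eq_single a (fun b _ h => prod_eq_zero (mem_univ a) (by simp [h.symm]; ring)) (by simp),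
    prod_eq_single a (fun b _ h => by simp [h]) (by simp)]
  simp
  ring

lemma w_eq {p : ℝ} (h0 : 0 < p) (h1 : p < 1) (H : ι → Bool) : w p H = Real.exp (-(Fintype.card ι *
    Real.binEntropy p + (ec H - p * Fintype.card ι) * (Real.log (1 - p) - Real.log p))) := by
  have : w p H = Real.exp (∑ e, ((if H e = true then 1 else 0) * (Real.log p - Real.log (1 - p)) + Real.log (1 - p))) := by
    rw [Real.exp_sum]
    refine prod_congr rfl fun e _ => ?_
    split_ifs <;> simp [Real.exp_log, h0, sub_pos.2 h1]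
  rw [this, sum_add_distrib, ← sum_mul, sum_const, Real.binEntropy, Real.log_inv, Real.log_inv, ec, card_univ]
  congr 1
  simp only [nsmul_eq_mul]
  ring

lemma orb (τ : Equiv.Perm ι) {a b : ℝ} (ha : 0 ≤ a) (hb : 0 ≤ b) :
    ∑ H : ι → Bool, (if H ∘ τ = H then ∏ e, (if H e = true then a else b) else 0) ≤
      ∏ e, if τ e = e then a + b else √(a ^ 2 + b ^ 2) := by
  classical
  let q : ι → Quotient (Equiv.Perm.SameCycle.setoid τ) := Quotient.mk _
  rw [← sum_filter, ← prod_fiberwise univ q]
  have h1 : ∑ H ∈ univ.filter fun H : ι → Bool => H ∘ τ = H, ∏ e, (if H e = true then a else b) ≤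
      ∑ K : Quotient (Equiv.Perm.SameCycle.setoid τ) → Bool, ∏ e, (if K (q e) = true then a else b) := by
    refine le_of_le_of_eq (sum_le_sum_of_subset_of_nonneg (fun H hH => ?_) fun _ _ _ => prod_nonneg fun _ _ => by
      positivity) (sum_image (s := univ) (g := fun K : Quotient (Equiv.Perm.SameCycle.setoid τ) → Bool => K ∘ q)
      (f := fun H => ∏ e, (if H e = true then a else b)) (Quotient.mk_surjective.injective_comp_right.injOn))
    have hH := (mem_filter.1 hH).2
    refine mem_image.2 ⟨Quotient.lift H fun x y h => ?_, mem_univ _, rfl⟩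
    obtain ⟨k, -, rfl⟩ := Equiv.Perm.SameCycle.exists_pow_eq' h
    induction k with
    | zero => rfl
    | succ k ih => rw [pow_succ', Equiv.Perm.mul_apply, ← comp_apply (f := H), hH]; exact ih ⟨k, by simp⟩
  refine h1.trans ?_
  have h2 : ∀ K : Quotient (Equiv.Perm.SameCycle.setoid τ) → Bool, ∏ e, (if K (q e) = true then a else b) =
      ∏ o, (if K o = true then a else b) ^ (univ.filter fun e => q e = o).card := fun K => by
    rw [← prod_fiberwise univ q]
    exact prod_congr rfl fun o _ => by rw [← prod_const]; exact prod_congr rfl fun e he => by rw [(mem_filter.1 he).2]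
  simp only [h2]
  rw [← Fintype.piFinset_univ, ← prod_univ_sum (t := fun _ => univ)
    (f := fun o (x : Bool) => (if x = true then a else b) ^ (univ.filter fun e => q e = o).card)]
  refine prod_le_prod (fun _ _ => sum_nonneg fun _ _ => by positivity) fun o _ => ?_
  obtain ⟨x, rfl⟩ := Quotient.mk_surjective o
  simp only [Fintype.sum_bool, if_true, Bool.false_eq_true, if_false]
  by_cases hx : τ x = x
  · have : (univ.filter fun e => q e = ⟦x⟧) = {x} := by
      ext y
      simp only [mem_filter, mem_univ, true_and, mem_singleton]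
      exact ⟨fun h => (Quotient.exact h).eq_of_right hx, fun h => h ▸ rfl⟩
    simp [this, hx]
  · have h3 : ∀ y ∈ univ.filter fun e => q e = ⟦x⟧, (if τ y = y then a + b else √(a ^ 2 + b ^ 2)) = √(a ^ 2 + b ^ 2) :=
      fun y hy => if_neg fun h => by
        have h4 : τ.SameCycle y x := Quotient.exact (mem_filter.1 hy).2
        obtain rfl := h4.eq_of_left h
        exact hx h
    rw [prod_congr rfl h3, prod_const]
    obtain ⟨l, hl⟩ := Nat.exists_eq_add_of_le (one_lt_card.2 ⟨x, mem_filter.2 ⟨mem_univ _, rfl⟩, τ x,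
      mem_filter.2 ⟨mem_univ _, Quotient.sound (show τ.SameCycle (τ x) x from ⟨-1, by simp⟩)⟩,
      Ne.symm hx⟩ : 2 ≤ (univ.filter fun e => q e = ⟦x⟧).card)
    rw [hl, pow_add, pow_add, pow_add, Real.sq_sqrt (by positivity), add_mul]
    gcongr
    · exact Real.le_sqrt_of_sq_le (by nlinarith)
    · exact Real.le_sqrt_of_sq_le (by nlinarith)

lemma perms (m : ℕ) (hm : 0 < m) : ∑ σ : Equiv.Perm (Fin m), ((m : ℝ) ^ σ.support.card)⁻¹ ≤ 2 ^ m := by
  have hm' : (m : ℝ) ≠ 0 := by positivity
  have h1 : ∑ σ : Equiv.Perm (Fin m), ((m : ℝ) ^ σ.support.card)⁻¹ ≤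
      ∑ f : Fin m → Fin m, ∏ x, if f x = x then 1 else (m : ℝ)⁻¹ := by
    refine le_of_eq_of_le ?_ (sum_le_sum_of_subset_of_nonneg (subset_univ (univ.image
      fun σ : Equiv.Perm (Fin m) => ⇑σ)) fun _ _ _ => prod_nonneg fun _ _ => by positivity)
    rw [sum_image DFunLike.coe_injective.injOn]
    exact sum_congr rfl fun σ _ => by simp [prod_ite, Equiv.Perm.support]
  refine h1.trans ?_
  rw [← Fintype.piFinset_univ, ← prod_univ_sum (t := fun _ => univ)
    (f := fun x y : Fin m => if y = x then 1 else (m : ℝ)⁻¹)]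
  refine (prod_le_prod (fun _ _ => sum_nonneg fun _ _ => by positivity) fun x _ => ?_).trans_eq
    (show ∏ _ : Fin m, (2 : ℝ) = _ by simp)
  refine (sum_le_sum (g := fun y => (if y = x then 1 else 0) + (m : ℝ)⁻¹) fun y _ => ?_).trans_eq ?_
  · split_ifs <;> simp
  · simp [sum_add_distrib, hm', one_add_one_eq_two]

lemma desc {n m : ℕ} (h : m ≤ n) : (n : ℝ) ^ m ≤ Real.exp m * n.descFactorial m := by
  have h1 := Real.pow_div_factorial_le_exp (m : ℝ) m.cast_nonneg m
  have h2 : n ^ m * m.factorial ≤ m ^ m * n.descFactorial m := by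
    rw [← Nat.descFactorial_self, Nat.descFactorial_eq_prod_range, Nat.descFactorial_eq_prod_range,
      ← card_range m, ← prod_const, ← prod_const, card_range, ← prod_mul_distrib, ← prod_mul_distrib]
    exact prod_le_prod' fun i hi => by
      rw [Nat.mul_sub, Nat.mul_sub, mul_comm m n]
      exact Nat.sub_le_sub_left (Nat.mul_le_mul_right i h) _
  have h3 : (n : ℝ) ^ m * m.factorial ≤ m ^ m * n.descFactorial m := by exact_mod_cast h2
  rw [div_le_iff₀ (by positivity)] at h1
  refine le_of_mul_le_mul_right (h3.trans ?_) (show (0 : ℝ) < m.factorial by positivity)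
  nlinarith [show (0 : ℝ) ≤ n.descFactorial m by positivity]

end Pool.Agent.H.MP_1dfc85_pr
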