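import Pool.Agent.H.MP_1dfc85_pr.A

namespace Pool.Agent.H.MP_1dfc85_pr

open Finset Function

/-- Unordered pairs of distinct vertices; a graph on `Fin n` is a 0/1 labelling of them. -/
abbrev Sl (n : ℕ) := {e : Sym2 (Fin n) // ¬ e.IsDiag}

variable {l m n : ℕ}

/-- The map on pairs induced by an injection of vertex sets. -/
def ind (f : Fin m ↪ Fin n) (e : Sl m) : Sl n := ⟨e.1.map f, fun h => e.2 ((Sym2.isDiag_map f.injective).1 h)⟩

lemma ind_inj (f : Fin m ↪ Fin n) : Injective (ind f) := fun _ _ h =>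
  Subtype.ext (Sym2.map.injective f.injective (congrArg Subtype.val h))

lemma ind_trans (g : Fin l ↪ Fin m) (f : Fin m ↪ Fin n) : ind (g.trans f) = ind f ∘ ind g :=
  funext fun e => Subtype.ext (by simp [ind, Sym2.map_map])

def aut (H : Sl m → Bool) : ℕ := (univ.filter fun σ : Equiv.Perm (Fin m) => H ∘ ind σ.toEmbedding = H).card

lemma fib (G : Sl n → Bool) (f : Fin m ↪ Fin n) :
    (univ.filter fun g : Fin m ↪ Fin n => G ∘ ind g = G ∘ ind f ∧ univ.map g = univ.map f).card = aut (G ∘ ind f) := by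
  refine (card_nbij (fun σ => σ.toEmbedding.trans f) (fun σ h => ?_) (fun σ _ τ _ h => ?_) fun g h => ?_).symm
  · simp only [coe_filter, mem_univ, true_and, Set.mem_setOf] at h ⊢
    exact ⟨by rw [ind_trans, ← comp_assoc, h], by rw [← map_map, map_univ_equiv]⟩
  · exact Equiv.ext fun x => f.injective (DFunLike.congr_fun h x)
  · simp only [coe_filter, mem_univ, true_and, Set.mem_setOf] at h
    choose s hs using fun x => mem_map.1 (h.2 ▸ mem_map_of_mem g (mem_univ x))
    have h1 : Injective s := fun x y e => g.injective (by rw [← (hs x).2, e, (hs y).2])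
    have h2 : (Equiv.ofBijective s h1.bijective_of_finite).toEmbedding.trans f = g :=
      DFunLike.ext _ _ fun x => (hs x).2
    exact ⟨_, by simp only [coe_filter, mem_univ, true_and, Set.mem_setOf]; rw [comp_assoc, ← ind_trans, h2, h.1], h2⟩

lemma sumA (G : Sl n → Bool) (H : Sl m → Bool) {A : Finset (Fin n) → ℝ} (h0 : ∀ S, 0 ≤ A S) (h1 : ∑ S, A S ≤ 1) :
    ∑ f ∈ univ.filter fun f : Fin m ↪ Fin n => G ∘ ind f = H, A (univ.map f) ≤ aut H := by
  rw [← sum_fiberwise _ fun f : Fin m ↪ Fin n => univ.map f]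
  refine le_trans (sum_le_sum fun S _ => ?_) ((mul_sum _ _ _).symm.trans_le (mul_le_of_le_one_right (by positivity) h1))
  rw [sum_congr rfl (g := fun _ => A S) fun f hf => by rw [(mem_filter.1 hf).2], sum_const, nsmul_eq_mul,
    filter_filter]
  refine mul_le_mul_of_nonneg_right (Nat.cast_le.2 ?_) (h0 S)
  rcases (univ.filter fun f : Fin m ↪ Fin n => G ∘ ind f = H ∧ univ.map f = S).eq_empty_or_nonempty with h | ⟨f, h⟩
  · simp [h]
  · obtain ⟨-, rfl, rfl⟩ := mem_filter.1 h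
    exact (fib G f).le

variable {A : (Sl n → Bool) → (Sl m → Bool) → Finset (Fin n) → ℝ} {p : ℝ}

lemma up1 (p0 : 0 < p) (p1 : p < 1) (h0 : ∀ G H S, 0 ≤ A G H S) (h1 : ∀ G H, ∑ S, A G H S ≤ 1)
    (T : (Sl m → Bool) → Prop) [DecidablePred T] :
    ∑ G, w p G * ∑ f : Fin m ↪ Fin n, A G (G ∘ ind f) (univ.map f) ≤
      n.descFactorial m * ∑ H, w p H * (if T H then 0 else 1) + ∑ H, if T H then (aut H : ℝ) else 0 := by
  have h2 : ∀ G, ∑ f : Fin m ↪ Fin n, A G (G ∘ ind f) (univ.map f) ≤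
      ∑ f : Fin m ↪ Fin n, (if T (G ∘ ind f) then 0 else 1) + ∑ H, if T H then (aut H : ℝ) else 0 := fun G => by
    rw [← sum_fiberwise univ fun f : Fin m ↪ Fin n => G ∘ ind f,
      ← sum_fiberwise univ fun f : Fin m ↪ Fin n => G ∘ ind f, ← sum_add_distrib]
    refine sum_le_sum fun H _ => ?_
    rw [sum_congr rfl (g := fun f => A G H (univ.map f)) fun f hf => by rw [(mem_filter.1 hf).2],
      sum_congr rfl (f := fun f : Fin m ↪ Fin n => if T (G ∘ ind f) then (0 : ℝ) else 1)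
        (g := fun _ => if T H then (0 : ℝ) else 1) fun f hf => by rw [(mem_filter.1 hf).2]]
    split_ifs
    · simpa using sumA G H (h0 G H) (h1 G H)
    · rw [add_zero]
      exact sum_le_sum fun f _ => (single_le_sum (fun S _ => h0 G H S) (mem_univ _)).trans (h1 G H)
  refine (sum_le_sum fun G _ => mul_le_mul_of_nonneg_left (h2 G) (w_pos p0 p1 G).le).trans_eq ?_
  simp only [mul_add, sum_add_distrib]
  rw [← sum_mul, w_sum, one_mul]
  congr 1
  rw [sum_congr rfl fun G _ => mul_sum .., sum_comm,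
    sum_congr rfl fun f _ => marg p (ind_inj f) fun H => if T H then (0 : ℝ) else 1]
  simp

open Classical in
lemma up2 (h0 : ∀ G H S, 0 ≤ A G H S) (h1 : ∀ G H, ∑ S, A G H S ≤ 1) (G : Sl n → Bool) :
    ∑ f : Fin m ↪ Fin n, A G (G ∘ ind f) (univ.map f) ≤ ∑ f : Fin m ↪ Fin n,
      (1 - (if ∃ g : Fin m ↪ Fin n, G ∘ ind g = G ∘ ind f ∧ univ.map g ≠ univ.map f then 1 else 0) / 2 : ℝ) := by
  rw [← sum_fiberwise univ fun f : Fin m ↪ Fin n => G ∘ ind f,
    ← sum_fiberwise univ fun f : Fin m ↪ Fin n => G ∘ ind f]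
  refine sum_le_sum fun H _ => ?_
  rw [sum_congr rfl (g := fun f => A G H (univ.map f)) fun f hf => by rw [(mem_filter.1 hf).2]]
  by_cases h : ∃ f g : Fin m ↪ Fin n, G ∘ ind f = H ∧ G ∘ ind g = G ∘ ind f ∧ univ.map g ≠ univ.map f
  · obtain ⟨f, g, rfl, h2, h3⟩ := h
    have h4 := card_le_card (s := (univ.filter fun k : Fin m ↪ Fin n => G ∘ ind k = G ∘ ind f ∧ univ.map k = univ.map f) ∪
      univ.filter fun k : Fin m ↪ Fin n => G ∘ ind k = G ∘ ind g ∧ univ.map k = univ.map g)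
      (t := univ.filter fun k : Fin m ↪ Fin n => G ∘ ind k = G ∘ ind f) (by
        intro k hk
        simp only [mem_union, mem_filter, mem_univ, true_and] at hk ⊢
        exact hk.elim (·.1) (·.1.trans h2))
    rw [card_union_of_disjoint (disjoint_filter.2 fun k _ a b => h3 (b.2.symm.trans a.2)), fib, fib, h2] at h4
    refine (sumA G _ (h0 G _) (h1 G _)).trans (le_trans ?_ (card_nsmul_le_sum _ _ (1 / 2) fun k _ => by
      split_ifs <;> norm_num))
    rw [nsmul_eq_mul]
    linarith [(Nat.cast_le (α := ℝ)).2 h4, Nat.cast_add (R := ℝ) (aut (G ∘ ind f)) (aut (G ∘ ind f))]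
  · refine sum_le_sum fun f hf => ?_
    rw [if_neg fun ⟨g, hg⟩ => h ⟨f, g, (mem_filter.1 hf).2, hg⟩, zero_div, sub_zero]
    exact (single_le_sum (fun S _ => h0 G H S) (mem_univ _)).trans (h1 G H)

open Classical in
lemma second {ι α : Type} [Fintype ι] [DecidableEq ι] [Fintype α] (p0 : 0 < p) (p1 : p ≤ 1 / 2) (D : α → Finset ι)
    (d : ℕ) (h1 : ∀ a, (D a).card = d) (h2 : ∀ a b, a ≠ b → (D a ∩ D b).card ≤ 1) {c : ℝ} (c0 : 0 < c)
    (hc : c ≤ Fintype.card α * (1 - p) ^ d) :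
    c / (1 + 2 * c) ≤ ∑ G : ι → Bool, w p G * if ∃ a, ∀ e ∈ D a, G e = false then 1 else 0 := by
  obtain ⟨μ, hμ⟩ : ∃ μ, μ = Fintype.card α * (1 - p) ^ d := ⟨_, rfl⟩
  rw [← hμ] at hc
  have μ0 : 0 < μ := c0.trans_le hc
  have q0 : 0 < 1 - p := by linarith
  let X : (ι → Bool) → ℝ := fun G => ∑ a, if ∀ e ∈ D a, G e = false then 1 else 0
  have e1 : ∑ G, w p G * X G = μ := by
    simp only [X, mul_sum]
    rw [sum_comm]
    simp only [none, h1]
    simp [hμ]
  have e2 : ∑ G, w p G * X G ^ 2 ≤ μ + 2 * μ ^ 2 := by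
    simp only [X, sq, sum_mul_sum]
    simp only [mul_sum]
    rw [sum_comm]
    refine (sum_le_sum (g := fun _ => (1 - p) ^ d + 2 * μ * (1 - p) ^ d) fun a _ => ?_).trans_eq (by simp [hμ]; ring)
    rw [sum_comm]
    refine (sum_le_sum (g := fun b => (if b = a then (1 - p) ^ d else 0) + 2 * (1 - p) ^ d * (1 - p) ^ d)
      fun b _ => ?_).trans_eq (by simp [hμ, sum_add_distrib]; ring)
    have := none p (D a ∪ D b)
    simp only [forall_mem_union, ite_and] at this
    simp only [mul_ite, mul_one, mul_zero] at this ⊢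
    rw [sum_congr rfl (g := fun G => if ∀ e ∈ D a, G e = false then if ∀ e ∈ D b, G e = false then w p G else 0 else 0)
      fun G _ => by split_ifs <;> rfl, this]
    split_ifs with h
    · rw [h, union_self, h1]
      exact le_add_of_nonneg_right (by positivity)
    · have h3 := card_union_add_card_inter (D a) (D b)
      have h4 := h2 a b (Ne.symm h)
      rw [h1, h1] at h3
      have h5 := pow_le_pow_of_le_one q0.le (by linarith) (show d + d ≤ (D a ∪ D b).card + 1 by omega)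
      rw [pow_succ, pow_add] at h5
      nlinarith [pow_pos q0 (D a ∪ D b).card]
  have h3 : ∀ G, 2 * (1 + 2 * μ)⁻¹ * X G - (1 + 2 * μ)⁻¹ ^ 2 * X G ^ 2 ≤ if ∃ a, ∀ e ∈ D a, G e = false then 1 else 0 :=
    fun G => by
      split_ifs with h
      · nlinarith [sq_nonneg ((1 + 2 * μ)⁻¹ * X G - 1)]
      · rw [show X G = 0 from sum_eq_zero fun a _ => if_neg (not_exists.1 h a)]
        simp
  refine le_trans ?_ (sum_le_sum fun G _ => mul_le_mul_of_nonneg_left (h3 G) (w_pos p0 (by linarith) G).le)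
  simp only [mul_sub, mul_left_comm (w p _), sum_sub_distrib, ← mul_sum, e1]
  refine le_trans ?_ (sub_le_sub_left (mul_le_mul_of_nonneg_left e2 (by positivity)) _)
  rw [show 2 * (1 + 2 * μ)⁻¹ * μ - (1 + 2 * μ)⁻¹ ^ 2 * (μ + 2 * μ ^ 2) = μ / (1 + 2 * μ) by field_simp; ring,
    div_le_div_iff₀ (by positivity) (by positivity)]
  nlinarith

open Classical in
lemma swap (p0 : 0 < p) (p1 : p ≤ 1 / 2) (f : Fin m ↪ Fin n) {c : ℝ} (c0 : 0 < c) (h1 : 1 ≤ m * (1 - p) ^ (m - 1))
    (h2 : c ≤ (n - m : ℕ) * (1 - p) ^ m) : 1 / 3 * (c / (1 + 2 * c)) ≤ ∑ G : Sl n → Bool, w p G *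
      if ∃ g : Fin m ↪ Fin n, G ∘ ind g = G ∘ ind f ∧ univ.map g ≠ univ.map f then 1 else 0 := by
  let j : {u // u ∉ univ.map f} × Fin m → Sl n := fun x => ⟨s(x.1.1, f x.2), fun h =>
    x.1.2 (Sym2.mk_isDiag_iff.1 h ▸ mem_map_of_mem f (mem_univ _))⟩
  have hj : Injective (Sum.elim (ind f) j) := by
    refine (ind_inj f).sumElim (fun x y h => ?_) fun e x h => x.1.2 ?_
    · rcases Sym2.eq_iff.1 (congrArg Subtype.val h) with h | h
      · exact Prod.ext (Subtype.ext h.1) (f.injective h.2)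
      · exact (x.1.2 (h.1 ▸ mem_map_of_mem f (mem_univ _))).elim
    · obtain ⟨a, -, ha⟩ := Sym2.mem_map.1 (show x.1.1 ∈ e.1.map f from
        (show e.1.map f = s(x.1.1, f x.2) from congrArg Subtype.val h) ▸ Sym2.mem_mk_left _ _)
      exact ha ▸ mem_map_of_mem f (mem_univ _)
  have k1 := second p0 p1 (fun v : Fin m => univ.filter fun e : Sl m => v ∈ e.1) (m - 1) (fun v => by
    rw [show m - 1 = (univ : Finset {x : Fin m // x ≠ v}).card by simp]
    refine (card_nbij (fun x => ⟨s(v, x.1), fun h' => x.2 (Sym2.mk_isDiag_iff.1 h').symm⟩) (fun x _ => by simp)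
      (fun x _ y _ h => Subtype.ext (Sym2.congr_right.1 (congrArg Subtype.val h))) fun e he => ?_).symm
    obtain ⟨x, hx⟩ := Sym2.mem_iff_exists.1 (mem_filter.1 he).2
    exact ⟨⟨x, fun h => e.2 (by rw [hx, h]; simp)⟩, by simp, Subtype.ext hx.symm⟩)
    (fun a b h => card_le_one.2 fun x hx y hy => Subtype.ext (Sym2.eq_of_ne_mem h
      (mem_filter.1 (mem_inter.1 hx).1).2 (mem_filter.1 (mem_inter.1 hx).2).2 (mem_filter.1 (mem_inter.1 hy).1).2
      (mem_filter.1 (mem_inter.1 hy).2).2)) one_pos (by simpa using h1)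
  have k2 := second p0 p1 (fun u : {u // u ∉ univ.map f} => ({u} ×ˢ univ : Finset (_ × Fin m))) m (by simp)
    (fun a b h => by rw [product_inter_product]; simp [h.symm]) c0 (by
      rw [Fintype.card_subtype_compl, Fintype.card_coe]; simpa using h2)
  refine le_trans (mul_le_mul (by norm_num at k1 ⊢; exact k1) k2 (by positivity) (le_trans (by norm_num) k1)) ?_
  rw [← indep, ← marg p hj]
  refine sum_le_sum fun G _ => mul_le_mul_of_nonneg_left ?_ (w_pos p0 (by linarith) G).le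
  split_ifs with a b d d <;> try norm_num
  obtain ⟨v, hv⟩ := a
  obtain ⟨u, hu⟩ := b
  have hu' : ∀ x, f x ≠ u := fun x h => u.2 (h ▸ mem_map_of_mem f (mem_univ _))
  refine d ⟨⟨update f v u, fun x y h => ?_⟩, funext fun e => ?_, fun h => u.2
    (h.subset (mem_map.2 ⟨v, mem_univ _, by simp⟩))⟩
  · by_cases h1 : x = v <;> by_cases h2 : y = v
    · rw [h1, h2]
    · rw [h1, update_self, update_of_ne h2] at h; exact (hu' _ h.symm).elim
    · rw [h2, update_self, update_of_ne h1] at h; exact (hu' _ h).elim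
    · rw [update_of_ne h2, update_of_ne h1] at h; exact f.injective h
  · by_cases h : v ∈ e.1
    · obtain ⟨x, hx⟩ := Sym2.mem_iff_exists.1 h
      have h3 : x ≠ v := fun h => e.2 (by rw [hx, h]; simp)
      refine Eq.trans ?_ ((hu (u, x) (by simp)).trans (hv e (by simpa)).symm)
      exact congrArg G (Subtype.ext (by simp [ind, j, hx, h3]))
    · exact congrArg G (Subtype.ext (Sym2.map_congr fun x hx => update_of_ne (fun h' : x = v => h (h' ▸ hx)) _ _))

end Pool.Agent.H.MP_1dfc85_pr
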