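import Pool.Agent.H.MP_1dfc85_pr.B

namespace Pool.Agent.H.MP_1dfc85_pr

open Finset Function Real

variable {m n : ℕ} {A : (Sl n → Bool) → (Sl m → Bool) → Finset (Fin n) → ℝ} {p : ℝ}

lemma fixed (σ : Equiv.Perm (Fin m)) : ((univ.filter fun e : Sl m => ind σ.toEmbedding e = e).card : ℝ) ≤
    (m - σ.support.card) ^ 2 / 2 + σ.support.card := by
  have h1 : (univ.filter fun e : Sl m => ind σ.toEmbedding e = e).card ≤ (σ.supportᶜ.offDiag.image Sym2.mk.uncurry ∪
      σ.support.image fun a => s(a, σ a)).card := card_le_card_of_injOn Subtype.val (fun e he => by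
    obtain ⟨⟨a, b⟩, hab⟩ := e
    have h2 : a ≠ b := fun h => hab (Sym2.mk_isDiag_iff.2 h)
    rcases Sym2.eq_iff.1 (congrArg Subtype.val (mem_filter.1 he).2) with h | h
    · exact mem_union_left _ (mem_image.2 ⟨(a, b), by simpa [h2] using h, rfl⟩)
    · have h3 : σ a = b := h.1
      exact mem_union_right _ (mem_image.2 ⟨a, by simp [h3, h2.symm], by rw [h3]⟩)) Subtype.val_injective.injOn
  have h2 := h1.trans ((card_union_le _ _).trans (Nat.add_le_add (Sym2.card_image_offDiag _).le card_image_le))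
  have h3 : σ.support.card ≤ m := by simpa using σ.support.card_le_univ
  have h4 := (Nat.cast_le (α := ℝ)).2 h2
  rw [Nat.cast_add, Nat.cast_choose_two, card_compl, Fintype.card_fin, Nat.cast_sub h3] at h4
  have h5 := (Nat.cast_le (α := ℝ)).2 h3
  linarith

lemma term {ι : Type} [Fintype ι] [DecidableEq ι] (p0 : 0 < p) (p1 : p < 1) (τ : Equiv.Perm ι) {s : ℝ} (r : ℝ)
    (hs : 0 ≤ s) : ∑ H : ι → Bool, (if |ec H - p * Fintype.card ι| ≤ r ∧ H ∘ τ = H then w p H else 0) ≤
      exp (s * (r - p * Fintype.card ι) + ((univ.filter fun e => τ e = e).card * (p * (exp s - 1)) +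
        (Fintype.card ι - (univ.filter fun e => τ e = e).card) * ((p ^ 2 * exp s ^ 2 - 2 * p + p ^ 2) / 2))) := by
  have q0 := sub_pos.2 p1
  rw [exp_add]
  refine le_trans (sum_le_sum fun H _ => ?_) ((mul_sum _ _ _).symm.trans_le (mul_le_mul_of_nonneg_left
    ((orb τ (a := p * exp s) (by positivity) q0.le).trans ?_) (exp_pos _).le))
  · have h1 : ∏ e, (if H e = true then p * exp s else 1 - p) = w p H * exp (s * ec H) := by
      rw [ec, mul_sum, exp_sum, w, ← prod_mul_distrib]
      exact prod_congr rfl fun e _ => by split_ifs <;> simp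
    have h2 := w_pos p0 p1 H
    rw [h1]
    split_ifs with a b b
    · rw [mul_left_comm, ← exp_add]
      exact le_mul_of_one_le_right h2.le (one_le_exp (by nlinarith [abs_le.1 a.1]))
    · exact (b a.2).elim
    · positivity
    · simp
  · refine (prod_le_prod (g := fun e => exp (if τ e = e then p * (exp s - 1) else
      (p ^ 2 * exp s ^ 2 - 2 * p + p ^ 2) / 2)) (fun _ _ => by positivity) fun e _ => ?_).trans_eq ?_
    · split_ifs
      · linarith [add_one_le_exp (p * (exp s - 1))]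
      · refine sqrt_le_iff.2 ⟨(exp_pos _).le, ?_⟩
        rw [← exp_nat_mul]
        refine le_trans (le_of_eq ?_) (add_one_le_exp _)
        push_cast
        ring
    · rw [← exp_sum, sum_ite, sum_const, sum_const, ← card_univ, ← card_filter_add_card_filter_not (s := univ) (fun e => τ e = e)]
      simp

lemma num {m k F L : ℝ} (p0 : 0 < p) (p1 : p ≤ 1 / 2) (hm : 1 ≤ m) (k0 : 0 ≤ k) (km : k ≤ m) (F0 : 0 ≤ F)
    (F1 : F ≤ m * (m - 1) / 2) (F2 : F ≤ (m - k) ^ 2 / 2 + k) (L0 : 0 ≤ L) (L1 : L ^ 2 ≤ 4 * m) (h : L - 8 ≤ m * p) :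
    ∃ s, 0 ≤ s ∧ s * (m * √p - p * (m * (m - 1) / 2)) + (F * (p * (exp s - 1)) +
      (m * (m - 1) / 2 - F) * ((p ^ 2 * exp s ^ 2 - 2 * p + p ^ 2) / 2)) ≤ 1100 * m - k * L := by
  rcases le_total (4 * L) (m * p) with h1 | h1
  · refine ⟨0, le_rfl, ?_⟩
    have h2 : m * k / 2 - m / 2 - k ≤ m * (m - 1) / 2 - F := by nlinarith
    have h3 : (m * (m - 1) / 2 - F) * (p ^ 2 - p) ≤ (m * (m - 1) / 2 - F) * (-p / 2) :=
      mul_le_mul_of_nonneg_left (by nlinarith) (by linarith)
    rw [exp_zero]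
    nlinarith [mul_le_mul_of_nonneg_right h2 p0.le, mul_le_mul_of_nonneg_left h1 k0]
  · obtain ⟨x, rfl⟩ : ∃ x, k = m * x := ⟨k / m, by field_simp⟩
    have x0 : 0 ≤ x := nonneg_of_mul_nonneg_right k0 (by linarith)
    have x1 : x ≤ 1 := by nlinarith
    refine ⟨2 * x, by positivity, ?_⟩
    have e1 : (1 - x) ^ 2 * exp (2 * x) ≤ 1 := by
      rw [show exp (2 * x) = exp x ^ 2 by rw [← exp_nat_mul]; norm_num, ← mul_pow]
      refine pow_le_one₀ (mul_nonneg (by linarith) (exp_pos _).le) ?_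
      refine (mul_le_mul_of_nonneg_right (one_sub_le_exp_neg x) (exp_pos _).le).trans_eq ?_
      rw [← exp_add]
      simp
    have e2 : exp (2 * x) ≤ 8 := by
      refine (exp_le_exp.2 (show 2 * x ≤ 1 + 1 by linarith)).trans ?_
      rw [exp_add]
      nlinarith [exp_one_lt_d9, exp_pos 1]
    have e0 := exp_pos (2 * x)
    generalize exp (2 * x) = E at *
    have a1 : x * (m * √p) ≤ m := by
      have : √p ≤ 1 := sqrt_le_one.2 (by linarith)
      nlinarith [mul_le_mul x1 this (sqrt_nonneg _) zero_le_one]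
    have a2 : F * (p * E) ≤ p * m ^ 2 / 2 + 4 * m := by
      have b1 : F * E ≤ m ^ 2 / 2 + 8 * m := by
        nlinarith [mul_le_mul_of_nonneg_right F2 e0.le, mul_le_mul_of_nonneg_left e1 (sq_nonneg m),
          mul_le_mul km e2 e0.le (by linarith : 0 ≤ m)]
      nlinarith [mul_le_mul_of_nonneg_left b1 p0.le]
    have a3 : (m * (m - 1) / 2 - F) * (p ^ 2 * (E ^ 2 + 1) / 2) ≤ 1040 * m := by
      refine (mul_le_mul (show _ ≤ m ^ 2 / 2 by nlinarith) (show _ ≤ p ^ 2 * 65 / 2 by gcongr; nlinarith)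
        (by positivity) (by positivity)).trans ?_
      nlinarith [pow_le_pow_left₀ (by positivity) h1 2]
    have a4 := mul_le_mul_of_nonneg_left h k0
    have a5 : m * x * p ≤ m := by nlinarith
    nlinarith

lemma cnt (p0 : 0 < p) (p1 : p ≤ 1 / 2) (hm : 1 ≤ m) (h : log m - 8 ≤ m * p) :
    ∑ H : Sl m → Bool, (if |ec H - p * Fintype.card (Sl m)| ≤ m * √p then (aut H : ℝ) else 0) ≤
      exp (m ^ 2 / 2 * binEntropy p + 1103 * m) := by
  have p2 : p < 1 := by linarith
  have hm' : (1 : ℝ) ≤ m := by exact_mod_cast hm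
  have hB : (Fintype.card (Sl m) : ℝ) = m * (m - 1) / 2 := by
    rw [Sym2.card_subtype_not_diag, Nat.cast_choose_two, Fintype.card_fin]
  have h1 : ∀ H : Sl m → Bool, (if |ec H - p * Fintype.card (Sl m)| ≤ m * √p then (aut H : ℝ) else 0) ≤
      exp (m ^ 2 / 2 * binEntropy p + 2 * m) * ∑ σ : Equiv.Perm (Fin m), if |ec H - p * Fintype.card (Sl m)| ≤ m * √p ∧
        H ∘ ind σ.toEmbedding = H then w p H else 0 := fun H => by
    split_ifs with a
    · simp only [a, true_and]
      rw [← sum_filter, sum_const, nsmul_eq_mul, mul_left_comm, w_eq p0 p2, ← exp_add]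
      refine le_mul_of_one_le_right (by positivity) (one_le_exp ?_)
      have b1 : log p ≤ log (1 - p) := log_le_log p0 (by linarith)
      have b2 : √p * (log (1 - p) - log p) ≤ 2 := by
        have s0 := sqrt_pos.2 p0
        have c1 := mul_le_mul_of_nonneg_left (one_sub_inv_le_log_of_pos s0) s0.le
        rw [log_sqrt p0.le, mul_sub, mul_inv_cancel₀ s0.ne'] at c1
        nlinarith [log_nonpos (sub_pos.2 p2).le (by linarith)]
      nlinarith [mul_le_mul_of_nonneg_right (abs_le.1 a).2 (sub_nonneg.2 b1), binEntropy_nonneg p0.le p2.le]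
    · simp only [a, false_and, if_false, sum_const_zero, mul_zero, le_rfl]
  refine (sum_le_sum fun H _ => h1 H).trans ?_
  rw [← mul_sum, sum_comm, show (m : ℝ) ^ 2 / 2 * binEntropy p + 1103 * m = (m ^ 2 / 2 * binEntropy p + 2 * m) +
    (1100 * m + m * 1) by ring, exp_add _ (_ + _), exp_add (1100 * m : ℝ), exp_nat_mul]
  refine mul_le_mul_of_nonneg_left (le_trans (sum_le_sum fun σ _ => ?_) ((mul_sum _ _ _).symm.trans_le
    (mul_le_mul_of_nonneg_left ((perms m hm).trans (pow_le_pow_left₀ zero_le_two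
      (by linarith [add_one_le_exp 1]) m)) (exp_pos _).le))) (exp_pos _).le
  obtain ⟨s, s0, hs⟩ := num (F := (univ.filter fun e : Sl m => ind σ.toEmbedding e = e).card) p0 p1 hm'
    σ.support.card.cast_nonneg (by exact_mod_cast (by simpa using σ.support.card_le_univ : σ.support.card ≤ m))
    (by positivity) (hB ▸ Nat.cast_le.2 (card_le_univ _)) (fixed σ) (log_nonneg hm') (by
      have := log_le_sub_one_of_pos (sqrt_pos.2 (show (0 : ℝ) < m by linarith))
      rw [log_sqrt (by positivity)] at this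
      nlinarith [sq_sqrt (show (0 : ℝ) ≤ m by positivity), log_nonneg hm']) h
  refine (term p0 p2 (Equiv.ofBijective _ (ind_inj σ.toEmbedding).bijective_of_finite) _ s0).trans ?_
  rw [hB]
  refine (exp_le_exp.2 hs).trans_eq ?_
  rw [exp_sub, exp_nat_mul, exp_log (by linarith), div_eq_mul_inv]

lemma cheb (p0 : 0 < p) (p1 : p < 1) (hm : 1 ≤ m) :
    ∑ H : Sl m → Bool, w p H * (if |ec H - p * Fintype.card (Sl m)| ≤ m * √p then 0 else 1) ≤ 1 / 2 := by
  have hm' : (1 : ℝ) ≤ m := by exact_mod_cast hm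
  refine (sum_le_sum (g := fun H => (m ^ 2 * p)⁻¹ * (w p H * (ec H - p * Fintype.card (Sl m)) ^ 2))
    fun H _ => ?_).trans ?_
  · rw [mul_left_comm]
    refine mul_le_mul_of_nonneg_left ?_ (w_pos p0 p1 H).le
    split_ifs with a
    · positivity
    · rw [le_inv_mul_iff₀ (by positivity), mul_one, ← sq_abs (ec H - _), ← sq_sqrt p0.le, ← mul_pow]
      rw [sq_sqrt p0.le]
      exact pow_le_pow_left₀ (by positivity) (not_le.1 a).le 2
  · rw [← mul_sum, var, Sym2.card_subtype_not_diag, Nat.cast_choose_two, Fintype.card_fin, inv_mul_le_iff₀ (by positivity)]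
    nlinarith [mul_nonneg (mul_nonneg m.cast_nonneg (sub_nonneg.2 hm')) (mul_pos p0 p0).le, mul_pos (by linarith : (0 : ℝ) < m) p0]

lemma main (p0 : 0 < p) (p1 : p ≤ 1 / 2) (hm : 1 ≤ m) (hn : m < n) (h : m / 2 * binEntropy p - log n ≤ -1200)
    (h0 : ∀ G H S, 0 ≤ A G H S) (h1 : ∀ G H, ∑ S, A G H S ≤ 1) :
    ∑ G, w p G * ∑ f : Fin m ↪ Fin n, A G (G ∘ ind f) (univ.map f) ≤
      (1 - 1 / 3 * (exp (-8) / (1 + 2 * exp (-8))) / 2) * n.descFactorial m := by
  have p2 : p < 1 := by linarith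
  have hm' : (1 : ℝ) ≤ m := by exact_mod_cast hm
  have hn' : (m : ℝ) + 1 ≤ n := by exact_mod_cast hn
  have c0 := exp_pos (-8)
  have L0 := log_nonneg hm'
  rcases le_total (log m - 8) (m * p) with h2 | h2
  · refine (up1 p0 p2 h0 h1 _).trans ((add_le_add (mul_le_mul_of_nonneg_left (cheb p0 p2 hm) (by positivity))
      (cnt p0 p1 hm h2)).trans ?_)
    have a1 : exp (m ^ 2 / 2 * binEntropy p + 1103 * m) * exp m * exp 3 ≤ n ^ m := by
      rw [← exp_log (show (0 : ℝ) < n by linarith), ← exp_nat_mul, ← exp_add, ← exp_add]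
      exact exp_le_exp.2 (by nlinarith)
    have a2 : exp (m ^ 2 / 2 * binEntropy p + 1103 * m) * exp 3 ≤ n.descFactorial m :=
      le_of_mul_le_mul_left (by linarith [desc hn.le]) (exp_pos m)
    have a3 : exp (-8) / (1 + 2 * exp (-8)) ≤ 1 := by
      rw [div_le_one (by positivity)]
      linarith
    nlinarith [add_one_le_exp 3, exp_pos (m ^ 2 / 2 * binEntropy p + 1103 * m),
      show (0 : ℝ) ≤ n.descFactorial m by positivity]
  · have q1 : exp (-(m * (p + 2 * p ^ 2))) ≤ (1 - p) ^ m := by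
      rw [← mul_neg, exp_nat_mul]
      refine pow_le_pow_left₀ (exp_pos _).le ?_ m
      rw [exp_neg, inv_le_comm₀ (exp_pos _) (by linarith), inv_le_iff_one_le_mul₀ (by linarith)]
      nlinarith [mul_le_mul_of_nonneg_right (add_one_le_exp (p + 2 * p ^ 2)) (sub_pos.2 p2).le,
        mul_nonneg (sq_nonneg p) (by linarith : 0 ≤ 1 - 2 * p)]
    have mp := mul_pos (by linarith : (0 : ℝ) < m) p0
    have q2 : 1 ≤ m * (1 - p) ^ m := by
      have b1 : log m ^ 2 ≤ 4 * m := by
        have := log_le_sub_one_of_pos (sqrt_pos.2 (show (0 : ℝ) < m by linarith))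
        rw [log_sqrt (by positivity)] at this
        nlinarith [sq_sqrt (show (0 : ℝ) ≤ m by positivity)]
      have b2 : m * p ^ 2 ≤ 4 := le_of_mul_le_mul_left (by nlinarith) (by linarith : (0 : ℝ) < m)
      refine le_trans ?_ (mul_le_mul_of_nonneg_left q1 (by positivity))
      nth_rw 1 [← exp_log (show (0 : ℝ) < m by linarith)]
      rw [← exp_add]
      exact one_le_exp (by linarith)
    have q3 : exp (-8) ≤ (n - m : ℕ) * (1 - p) ^ m := by
      rw [Nat.cast_sub hn.le]
      have q4 : 0 ≤ (1 - p) ^ m := by positivity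
      rcases le_total (2 * m : ℝ) n with h3 | h3
      · nlinarith [exp_le_one_iff.2 (show (-8 : ℝ) ≤ 0 by norm_num)]
      · have b1 : log n ≤ log m + 1 := by
          have := log_le_log (by linarith) h3
          rw [log_mul two_ne_zero (by linarith)] at this
          linarith [log_two_lt_d9]
        have b2 : p * -log p ≤ binEntropy p := by
          rw [binEntropy, log_inv, log_inv]
          nlinarith [log_nonpos (sub_pos.2 p2).le (by linarith)]
        have b3 : log (m * p) ≤ log m / 2 := by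
          have := log_le_sub_one_of_pos (half_pos mp)
          rw [log_div mp.ne' two_ne_zero] at this
          linarith [log_two_lt_d9]
        rw [log_mul (by linarith) p0.ne'] at b3
        have b4 : m * p ≤ 4 := le_of_mul_le_mul_right (by nlinarith) (by linarith : 0 < log m)
        nlinarith [exp_le_exp.2 (show -8 ≤ -(m * (p + 2 * p ^ 2)) by nlinarith)]
    refine (sum_le_sum fun G _ => mul_le_mul_of_nonneg_left (up2 h0 h1 G) (w_pos p0 p2 G).le).trans ?_
    rw [sum_congr rfl fun G _ => mul_sum .., sum_comm]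
    refine (sum_le_card_nsmul _ _ (1 - 1 / 3 * (exp (-8) / (1 + 2 * exp (-8))) / 2) fun f _ => ?_).trans_eq
      (by simp [mul_comm])
    simp only [mul_sub, mul_one, sum_sub_distrib, w_sum, ← mul_div_assoc, ← sum_div]
    have := swap p0 p1 f c0 (q2.trans (mul_le_mul_of_nonneg_left
      (pow_le_pow_of_le_one (by linarith) (by linarith) (m.sub_le 1)) (by positivity))) q3
    rw [← mul_div_assoc] at this
    linarith

lemma main' (p0 : 0 < p) (p1 : p < 1) (hm : 1 ≤ m) (hn : m < n) (h : m / 2 * binEntropy p - log n ≤ -1200)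
    (h0 : ∀ G H S, 0 ≤ A G H S) (h1 : ∀ G H, ∑ S, A G H S ≤ 1) :
    ∑ G, w p G * ∑ f : Fin m ↪ Fin n, A G (G ∘ ind f) (univ.map f) ≤
      (1 - 1 / 3 * (exp (-8) / (1 + 2 * exp (-8))) / 2) * n.descFactorial m := by
  rcases le_total p (1 / 2) with h2 | h2
  · exact main p0 h2 hm hn h h0 h1
  · refine le_of_eq_of_le ?_ (main (p := 1 - p) (A := fun G H => A (not ∘ G) (not ∘ H)) (by linarith) (by linarith) hm hn
      (by rwa [binEntropy_one_sub]) (fun _ _ => h0 _ _) fun _ _ => h1 _ _)
    refine (Fintype.sum_bijective (not ∘ ·) (Bool.not_bijective.comp_left) _ _ fun G => ?_).symm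
    congr 1
    exact prod_congr rfl fun e _ => by cases h : G e <;> simp [h]

end Pool.Agent.H.MP_1dfc85_pr
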